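import Pool.Agent.helper75.IQ.Spec

/-!
# Row iq:EQT
-/

set_option autoImplicit false

namespace Pool.Agent.helper75.IQ

open MeasureTheory Set

theorem EQT_max {K : Set Sp} (hK : IsCompact K) {f : Sp → ℝ} (hf : ContinuousOn f K) {c : ℝ}
    (h : ∀ p ∈ K, f p < c) : ∃ c' < c, ∀ p ∈ K, f p ≤ c' := by
  rcases K.eq_empty_or_nonempty with rfl | hne
  · exact ⟨c - 1, by linarith, fun p hp => absurd hp (by simp)⟩
  · obtain ⟨q, hq, hm⟩ := hK.exists_isMaxOn hne hf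
    exact ⟨f q, h q hq, fun p hp => hm hp⟩

theorem EQT_space {κ R : ℝ} (hκ : κ ≤ 0) (hR : -4 < κ * R ^ 2) {p : Sp}
    (hp : nq (pr p) ≤ R ^ 2) : p ∈ space κ := by
  show 0 < 1 + κ / 4 * nq (pr p)
  have h1 : 0 ≤ κ * (nq (pr p) - R ^ 2) := mul_nonneg_of_nonpos_of_nonpos hκ (by linarith)
  linarith

theorem EQT_nq_cont : Continuous (fun p : Sp => nq (pr p)) := by
  unfold nq pr
  fun_prop

theorem EQT_C1c {κ R s : ℝ} {m : ℝ × ℝ → ℝ} (hκ : κ ≤ 0) (hR : -4 < κ * R ^ 2) {Y : VF}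
    (ha : Side R s m Y.a) (hb : Side R s m Y.b) (hc : Side R s m Y.c) : C1c κ Y where
  ca := ha.c1
  cb := hb.c1
  cc := hc.c1
  sa := ha.cs
  sb := hb.cs
  sc := hc.cs
  ia := fun p hp => EQT_space hκ hR (ha.sup p hp).1.le
  ib := fun p hp => EQT_space hκ hR (hb.sup p hp).1.le
  ic := fun p hp => EQT_space hκ hR (hc.sup p hp).1.le

theorem EQT_GG {κ τ R : ℝ} (hκ : κ ≤ 0) (hR : -4 < κ * R ^ 2) :
    ContinuousOn (GG κ τ) (Icc 0 (R ^ 2)) := by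
  unfold GG lam
  refine ContinuousOn.mul (Continuous.continuousOn (by fun_prop)) ?_
  refine ContinuousOn.pow (ContinuousOn.inv₀ (Continuous.continuousOn (by fun_prop)) ?_) 2
  intro w hw
  have h1 : 0 ≤ κ * (w - R ^ 2) := mul_nonneg_of_nonpos_of_nonpos hκ (by linarith [hw.2])
  have : 0 < 1 + κ / 4 * w := by linarith
  exact this.ne'

theorem EQT_GG_nonneg (κ τ w : ℝ) : 0 ≤ GG κ τ w :=
  mul_nonneg (Real.sqrt_nonneg _) (sq_nonneg _)

theorem EQT_FF_nonneg (κ τ R : ℝ) : 0 ≤ FF κ τ R := by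
  unfold FF
  refine mul_nonneg (by positivity) (intervalIntegral.integral_nonneg (by positivity) ?_)
  intro w _
  exact mul_nonneg (Real.sqrt_nonneg _) (EQT_GG_nonneg _ _ _)

theorem EQT_low {κ τ R r0 η : ℝ} (hκ : κ ≤ 0) (hR : -4 < κ * R ^ 2) (hR0 : 0 < R) (h0 : 0 < r0)
    (h1 : r0 < R) (hη : 0 < η) : ∃ r1, r0 < r1 ∧ r1 < R ∧
      FF κ τ R - η ≤ 2 * Real.pi * ∫ w in (0 : ℝ)..r1 ^ 2, √(1 - w / R ^ 2) * GG κ τ w := by
  set f : ℝ → ℝ := fun w => √(1 - w / R ^ 2) * GG κ τ w with hf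
  have hfc : ContinuousOn f (Icc 0 (R ^ 2)) :=
    (Continuous.continuousOn (by fun_prop)).mul (EQT_GG hκ hR)
  obtain ⟨M, hM⟩ := isCompact_Icc.exists_bound_of_continuousOn hfc
  have hM0 : 0 ≤ M := (norm_nonneg _).trans (hM 0 ⟨le_rfl, by positivity⟩)
  have ht : Filter.Tendsto (fun r : ℝ => 2 * Real.pi * (M * (R ^ 2 - r ^ 2)))
      (nhdsWithin R (Iio R)) (nhds 0) := by
    have h2 : Continuous (fun r : ℝ => 2 * Real.pi * (M * (R ^ 2 - r ^ 2))) := by fun_prop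
    have h3 := (h2.tendsto R).mono_left (nhdsWithin_le_nhds (s := Iio R))
    simpa using h3
  have he := (ht.eventually_lt_const hη).and (Ioo_mem_nhdsLT h1)
  obtain ⟨r1, h2, h3⟩ := he.exists
  refine ⟨r1, h3.1, h3.2, ?_⟩
  have hr1 : 0 < r1 := h0.trans h3.1
  have hsq : r1 ^ 2 ≤ R ^ 2 := pow_le_pow_left₀ hr1.le h3.2.le 2
  have hi : ∀ a b : ℝ, 0 ≤ a → a ≤ b → b ≤ R ^ 2 → IntervalIntegrable f volume a b := by
    intro a b ha hab hb
    refine ContinuousOn.intervalIntegrable ?_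
    rw [uIcc_of_le hab]
    exact hfc.mono (Icc_subset_Icc ha hb)
  have hadd := intervalIntegral.integral_add_adjacent_intervals
    (hi 0 (r1 ^ 2) le_rfl (by positivity) hsq) (hi (r1 ^ 2) (R ^ 2) (by positivity) hsq le_rfl)
  have hb : ‖∫ w in (r1 ^ 2)..(R ^ 2), f w‖ ≤ M * |R ^ 2 - r1 ^ 2| := by
    refine intervalIntegral.norm_integral_le_of_norm_le_const fun w hw => ?_
    rw [uIoc_of_le hsq] at hw
    exact hM w ⟨(by positivity : (0 : ℝ) ≤ r1 ^ 2).trans hw.1.le, hw.2⟩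
  rw [abs_of_nonneg (by linarith)] at hb
  have hb2 : ∫ w in (r1 ^ 2)..(R ^ 2), f w ≤ M * (R ^ 2 - r1 ^ 2) := (Real.le_norm_self _).trans hb
  have hFF : FF κ τ R = 2 * Real.pi * ∫ w in (0 : ℝ)..R ^ 2, f w := rfl
  have hpi : 0 ≤ 2 * Real.pi := by positivity
  rw [hFF, ← hadd, mul_add]
  have h4 := mul_le_mul_of_nonneg_left hb2 hpi
  linarith

theorem EQT_sqrt {A B : ℝ} (hB : 0 ≤ B) (hAB : B ≤ A) : |√A - √B| ≤ √(A - B) := by
  have h1 : √B ≤ √A := Real.sqrt_le_sqrt hAB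
  rw [abs_of_nonneg (by linarith)]
  have h2 : √A ≤ √B + √(A - B) := by
    rw [Real.sqrt_le_iff]
    refine ⟨by positivity, ?_⟩
    have h3 := Real.sq_sqrt hB
    have h4 := Real.sq_sqrt (show 0 ≤ A - B by linarith)
    have h5 : 0 ≤ √B * √(A - B) := by positivity
    nlinarith
  linarith

theorem EQT_kk {τ R σ w : ℝ} (hR0 : 0 < R) (hσ : 0 < σ) (hσ1 : σ < 1) (hw : 0 ≤ w)
    (hwR : w ≤ R ^ 2) : |kk τ ((1 - σ) / R) w - kk τ (1 / R) w| ≤ √(2 * σ) := by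
  unfold kk
  rw [← sub_div, abs_div, abs_of_nonneg (Real.sqrt_nonneg (1 + τ ^ 2 * w))]
  have h1 : 1 ≤ √(1 + τ ^ 2 * w) := by
    rw [Real.le_sqrt' (by norm_num)]
    nlinarith [mul_nonneg (sq_nonneg τ) hw]
  have hB : 0 ≤ 1 - (1 / R) ^ 2 * w := by
    rw [sub_nonneg, div_pow, one_pow, one_div_mul_eq_div, div_le_one (by positivity)]
    exact hwR
  have hd : (1 - ((1 - σ) / R) ^ 2 * w) - (1 - (1 / R) ^ 2 * w) =
      (2 * σ - σ ^ 2) * (w / R ^ 2) := by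
    field_simp
    ring
  have hw1 : w / R ^ 2 ≤ 1 := by
    rw [div_le_one (by positivity)]
    exact hwR
  have hw0 : 0 ≤ w / R ^ 2 := by positivity
  have hs : 0 ≤ 2 * σ - σ ^ 2 := by nlinarith
  have hd0 : 0 ≤ (2 * σ - σ ^ 2) * (w / R ^ 2) := mul_nonneg hs hw0
  have hd1 : (2 * σ - σ ^ 2) * (w / R ^ 2) ≤ 2 * σ := by nlinarith
  have h2 := EQT_sqrt hB (show 1 - (1 / R) ^ 2 * w ≤ 1 - ((1 - σ) / R) ^ 2 * w by linarith)
  rw [hd] at h2
  have h3 : √((2 * σ - σ ^ 2) * (w / R ^ 2)) ≤ √(2 * σ) := Real.sqrt_le_sqrt hd1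
  calc |√(1 - ((1 - σ) / R) ^ 2 * w) - √(1 - (1 / R) ^ 2 * w)| / √(1 + τ ^ 2 * w)
      ≤ |√(1 - ((1 - σ) / R) ^ 2 * w) - √(1 - (1 / R) ^ 2 * w)| :=
        div_le_self (abs_nonneg _) h1
    _ ≤ √(2 * σ) := h2.trans h3

theorem EQT_NN {τ R σ s : ℝ} (hR0 : 0 < R) (hσ : 0 < σ) (hσ1 : σ < 1) (hs : s = 1 ∨ s = -1)
    {p : Sp} (hp : nq (pr p) ≤ R ^ 2) :
    |(NN τ ((1 - σ) / R) s).a p - (NN τ (1 / R) s).a p| ≤ σ + √(2 * σ) * (|τ| * R + 1) ∧
    |(NN τ ((1 - σ) / R) s).b p - (NN τ (1 / R) s).b p| ≤ σ + √(2 * σ) * (|τ| * R + 1) ∧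
    |(NN τ ((1 - σ) / R) s).c p - (NN τ (1 / R) s).c p| ≤ σ + √(2 * σ) * (|τ| * R + 1) := by
  have hw0 : 0 ≤ nq (pr p) := by unfold nq; positivity
  have hk := EQT_kk (τ := τ) hR0 hσ hσ1 hw0 hp
  set k1 := kk τ ((1 - σ) / R) (nq (pr p)) with hk1
  set k2 := kk τ (1 / R) (nq (pr p)) with hk2
  have hs1 : |s| = 1 := by rcases hs with rfl | rfl <;> simp
  have hx : |p.1| ≤ R := by
    refine abs_le_of_sq_le_sq ?_ hR0.le
    have : p.1 ^ 2 + p.2.1 ^ 2 ≤ R ^ 2 := hp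
    nlinarith [sq_nonneg p.2.1]
  have hy : |p.2.1| ≤ R := by
    refine abs_le_of_sq_le_sq ?_ hR0.le
    have : p.1 ^ 2 + p.2.1 ^ 2 ≤ R ^ 2 := hp
    nlinarith [sq_nonneg p.1]
  have he : 0 ≤ √(2 * σ) := Real.sqrt_nonneg _
  have hxx : ∀ z : ℝ, |z| ≤ R → |(1 - σ) / R * z - 1 / R * z| ≤ σ := by
    intro z hz
    have e : (1 - σ) / R * z - 1 / R * z = -(σ * (z / R)) := by
      field_simp
      ring
    rw [e, abs_neg, abs_mul, abs_of_pos hσ, abs_div, abs_of_pos hR0]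
    have : |z| / R ≤ 1 := by rw [div_le_one hR0]; exact hz
    nlinarith
  have hyy : ∀ z : ℝ, |z| ≤ R → |(k1 - k2) * τ * z| ≤ √(2 * σ) * (|τ| * R) := by
    intro z hz
    rw [abs_mul, abs_mul, mul_assoc]
    exact mul_le_mul hk (mul_le_mul_of_nonneg_left hz (abs_nonneg τ)) (by positivity) he
  refine ⟨?_, ?_, ?_⟩
  · have e : (NN τ ((1 - σ) / R) s).a p - (NN τ (1 / R) s).a p =
        ((1 - σ) / R * p.1 - 1 / R * p.1) - s * ((k1 - k2) * τ * p.2.1) := by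
      show ((1 - σ) / R * p.1 - s * k1 * τ * p.2.1) - (1 / R * p.1 - s * k2 * τ * p.2.1) = _
      ring
    rw [e]
    have h1 := abs_sub ((1 - σ) / R * p.1 - 1 / R * p.1) (s * ((k1 - k2) * τ * p.2.1))
    rw [abs_mul s, hs1, one_mul] at h1
    have h2 := hxx _ hx
    have h3 := hyy _ hy
    nlinarith
  · have e : (NN τ ((1 - σ) / R) s).b p - (NN τ (1 / R) s).b p =
        ((1 - σ) / R * p.2.1 - 1 / R * p.2.1) + s * ((k1 - k2) * τ * p.1) := by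
      show ((1 - σ) / R * p.2.1 + s * k1 * τ * p.1) - (1 / R * p.2.1 + s * k2 * τ * p.1) = _
      ring
    rw [e]
    have h1 := abs_add_le ((1 - σ) / R * p.2.1 - 1 / R * p.2.1) (s * ((k1 - k2) * τ * p.1))
    rw [abs_mul s, hs1, one_mul] at h1
    have h2 := hxx _ hy
    have h3 := hyy _ hx
    nlinarith
  · have e : (NN τ ((1 - σ) / R) s).c p - (NN τ (1 / R) s).c p = s * (k1 - k2) := by
      show s * k1 - s * k2 = _
      ring
    rw [e, abs_mul, hs1, one_mul]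
    have : 0 ≤ √(2 * σ) * (|τ| * R) := by positivity
    nlinarith

/-- The calibrating fields which are almost optimal. -/
theorem EQT_key (hCAL : CAL_stmt) {κ τ R s : ℝ} {m : ℝ × ℝ → ℝ} {E : Set Sp} (hκ : κ ≤ 0)
    (hE : IsCompact E) (hT : TrapAt κ R m E) (hs : s = 1 ∨ s = -1) {K : Set Sp}
    (hK : IsCompact K) (hKs : ∀ p ∈ K, nq (pr p) < R ^ 2 ∧ 0 < s * (p.2.2 - m (pr p)))
    {η : ℝ} (hη : 0 < η) : ∃ Y : VF, Adm κ Y ∧
      2 / R * (vol κ E).toReal + FF κ τ R - η ≤ TT κ τ E Y ∧ ∀ p ∈ K,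
        |Y.a p - (NN τ (1 / R) s).a p| ≤ η ∧ |Y.b p - (NN τ (1 / R) s).b p| ≤ η ∧
        |Y.c p - (NN τ (1 / R) s).c p| ≤ η := by
  have hR0 : 0 < R := hT.r0
  have hRk : -4 < κ * R ^ 2 := hT.rk
  -- the radius
  obtain ⟨c0, hc0, hc0K⟩ := EQT_max hK EQT_nq_cont.continuousOn (fun p hp => (hKs p hp).1)
  obtain ⟨r0, hr0, hr0R, hr0c⟩ : ∃ r0, 0 < r0 ∧ r0 < R ∧ c0 ≤ r0 ^ 2 := by
    rcases le_or_gt c0 0 with h | h
    · exact ⟨R / 2, by linarith, by linarith, h.trans (by positivity)⟩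
    · refine ⟨√c0, Real.sqrt_pos.2 h, ?_, by rw [Real.sq_sqrt h.le]⟩
      rw [← Real.sqrt_sq hR0.le]
      exact Real.sqrt_lt_sqrt h.le hc0
  -- the height above the graph
  have hcm : ContinuousOn (fun p : Sp => -(s * (p.2.2 - m (pr p)))) K := by
    have h1 : ContinuousOn (fun p : Sp => m (pr p)) K :=
      hT.cm.comp (Continuous.continuousOn (by unfold pr; fun_prop)) fun p hp => (hKs p hp).1
    exact (ContinuousOn.mul continuousOn_const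
      ((Continuous.continuousOn (by fun_prop)).sub h1)).neg
  obtain ⟨e0, he0, he0K⟩ := EQT_max hK hcm (c := 0) (fun p hp => by
    have := (hKs p hp).2
    linarith)
  -- bounded height
  obtain ⟨C, hC⟩ := hK.exists_bound_of_continuousOn
    (f := fun p : Sp => p.2.2) (Continuous.continuousOn (by fun_prop))
  -- the second radius
  obtain ⟨r1, hr01, hr1R, hr1⟩ := EQT_low (τ := τ) hκ hRk hR0 hr0 hr0R (half_pos hη)
  -- the parameter
  have ht : Filter.Tendsto (fun σ : ℝ => 2 * (σ / R) * (vol κ E).toReal)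
      (nhdsWithin 0 (Ioi 0)) (nhds 0) := by
    have h2 : Continuous (fun σ : ℝ => 2 * (σ / R) * (vol κ E).toReal) := by fun_prop
    have h3 := (h2.tendsto 0).mono_left (nhdsWithin_le_nhds (s := Ioi 0))
    simpa using h3
  have ht2 : Filter.Tendsto (fun σ : ℝ => σ + √(2 * σ) * (|τ| * R + 1))
      (nhdsWithin 0 (Ioi 0)) (nhds 0) := by
    have h2 : Continuous (fun σ : ℝ => σ + √(2 * σ) * (|τ| * R + 1)) := by fun_prop
    have h3 := (h2.tendsto 0).mono_left (nhdsWithin_le_nhds (s := Ioi 0))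
    simpa using h3
  have he := ((ht.eventually_lt_const (half_pos hη)).and (ht2.eventually_lt_const hη)).and
    (Ioo_mem_nhdsGT (show (0 : ℝ) < 1 by norm_num))
  obtain ⟨σ, ⟨h1, h2⟩, hσ, hσ1⟩ := he.exists
  have hH0 : 0 ≤ (1 - σ) / R := div_nonneg (by linarith) hR0.le
  have hHR : (1 - σ) / R * R < 1 := by
    rw [div_mul_cancel₀ _ hR0.ne']
    linarith
  obtain ⟨Y, hY, hY1, hY2⟩ := hCAL κ τ R m E hκ hE hT ((1 - σ) / R) r1 (-e0) C hH0 hHR
    (hr0.trans hr01) hr1R (by linarith)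
  refine ⟨Y, hY, ?_, ?_⟩
  · refine le_trans ?_ hY1
    have hmono : ∫ w in (0 : ℝ)..r1 ^ 2, √(1 - w / R ^ 2) * GG κ τ w ≤
        ∫ w in (0 : ℝ)..r1 ^ 2, √(1 - ((1 - σ) / R) ^ 2 * w) * GG κ τ w := by
      have hr1p : 0 < r1 := hr0.trans hr01
      have hsq : r1 ^ 2 ≤ R ^ 2 := pow_le_pow_left₀ hr1p.le hr1R.le 2
      have hGc : ContinuousOn (GG κ τ) (Icc 0 (r1 ^ 2)) :=
        (EQT_GG hκ hRk).mono (Icc_subset_Icc le_rfl hsq)
      refine intervalIntegral.integral_mono_on (by positivity) ?_ ?_ ?_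
      · refine ContinuousOn.intervalIntegrable ?_
        rw [uIcc_of_le (by positivity)]
        exact (Continuous.continuousOn (by fun_prop)).mul hGc
      · refine ContinuousOn.intervalIntegrable ?_
        rw [uIcc_of_le (by positivity)]
        exact (Continuous.continuousOn (by fun_prop)).mul hGc
      · intro w hw
        refine mul_le_mul_of_nonneg_right (Real.sqrt_le_sqrt ?_) (EQT_GG_nonneg _ _ _)
        have e : w / R ^ 2 - ((1 - σ) / R) ^ 2 * w = (2 * σ - σ ^ 2) * (w / R ^ 2) := by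
          field_simp
          ring
        have h3 : 0 ≤ (2 * σ - σ ^ 2) * (w / R ^ 2) :=
          mul_nonneg (by nlinarith) (div_nonneg hw.1 (by positivity))
        linarith
    have h3 := mul_le_mul_of_nonneg_left hmono (show 0 ≤ 2 * Real.pi by positivity)
    have h4 : 2 / R * (vol κ E).toReal - 2 * (σ / R) * (vol κ E).toReal =
        2 * ((1 - σ) / R) * (vol κ E).toReal := by
      field_simp
    linarith
  · intro p hp
    have hpR := (hKs p hp).1.le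
    have hn : nq (pr p) ≤ r1 ^ 2 :=
      ((hc0K p hp).trans hr0c).trans (pow_le_pow_left₀ hr0.le hr01.le 2)
    have hC' : |p.2.2| ≤ C := hC p hp
    have he' : -e0 ≤ s * (p.2.2 - m (pr p)) := by
      have := he0K p hp
      linarith
    obtain ⟨e1, e2, e3⟩ := hY2 p hn hC' s hs he'
    obtain ⟨g1, g2, g3⟩ := EQT_NN (τ := τ) hR0 hσ hσ1 hs hpR
    rw [e1, e2, e3]
    exact ⟨g1.trans h2.le, g2.trans h2.le, g3.trans h2.le⟩

theorem EQT_bdd {f : Sp → ℝ} (hc : Continuous f) (hs : HasCompactSupport f) :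
    ∃ M : ℝ, 0 < M ∧ ∀ p, |f p| ≤ M := by
  obtain ⟨C, hC⟩ := hs.exists_bound_of_continuous hc
  exact ⟨|C| + 1, by positivity, fun p => (hC p).trans (by linarith [le_abs_self C])⟩

theorem EQT_one (hLIN : LIN_stmt) (hCAL : CAL_stmt) {κ τ R s : ℝ} {m : ℝ × ℝ → ℝ} {E : Set Sp}
    (hκ : κ ≤ 0) (hE : IsCompact E) (hT : TrapAt κ R m E)
    (hper : per κ τ E = ENNReal.ofReal (2 / R * (vol κ E).toReal + FF κ τ R))
    (hs : s = 1 ∨ s = -1) (Ψ : VF) (ha : Side R s m Ψ.a) (hb : Side R s m Ψ.b)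
    (hc : Side R s m Ψ.c)
    (ho : ∀ p, Ψ.a p * (NN τ (1 / R) s).a p + Ψ.b p * (NN τ (1 / R) s).b p +
      Ψ.c p * (NN τ (1 / R) s).c p = 0) : TT κ τ E Ψ = 0 := by
  have hR0 : 0 < R := hT.r0
  set P : ℝ := 2 / R * (vol κ E).toReal + FF κ τ R with hP
  have hP0 : 0 ≤ P := add_nonneg (by positivity) (EQT_FF_nonneg _ _ _)
  have hC1 : C1c κ Ψ := EQT_C1c hκ hT.rk ha hb hc
  set K : Set Sp := tsupport Ψ.a ∪ tsupport Ψ.b ∪ tsupport Ψ.c with hKdef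
  have hK : IsCompact K := (ha.cs.isCompact.union hb.cs.isCompact).union hc.cs.isCompact
  have hKs : ∀ p ∈ K, nq (pr p) < R ^ 2 ∧ 0 < s * (p.2.2 - m (pr p)) := by
    rintro p ((hp | hp) | hp)
    · exact ha.sup p hp
    · exact hb.sup p hp
    · exact hc.sup p hp
  have hoff : ∀ p, p ∉ K → Ψ.a p = 0 ∧ Ψ.b p = 0 ∧ Ψ.c p = 0 := by
    intro p hp
    exact ⟨image_eq_zero_of_notMem_tsupport fun h => hp (Or.inl (Or.inl h)),
      image_eq_zero_of_notMem_tsupport fun h => hp (Or.inl (Or.inr h)),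
      image_eq_zero_of_notMem_tsupport fun h => hp (Or.inr h)⟩
  obtain ⟨M1, hM1, hB1⟩ := EQT_bdd ha.c1.continuous ha.cs
  obtain ⟨M2, hM2, hB2⟩ := EQT_bdd hb.c1.continuous hb.cs
  obtain ⟨M3, hM3, hB3⟩ := EQT_bdd hc.c1.continuous hc.cs
  set M : ℝ := M1 + M2 + M3 with hM
  have hM0 : 0 < M := by positivity
  have hsq : ∀ p, Ψ.a p ^ 2 + Ψ.b p ^ 2 + Ψ.c p ^ 2 ≤ M ^ 2 := by
    intro p
    have e1 : Ψ.a p ^ 2 ≤ M1 ^ 2 := by
      rw [← sq_abs]; exact pow_le_pow_left₀ (abs_nonneg _) (hB1 p) 2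
    have e2 : Ψ.b p ^ 2 ≤ M2 ^ 2 := by
      rw [← sq_abs]; exact pow_le_pow_left₀ (abs_nonneg _) (hB2 p) 2
    have e3 : Ψ.c p ^ 2 ≤ M3 ^ 2 := by
      rw [← sq_abs]; exact pow_le_pow_left₀ (abs_nonneg _) (hB3 p) 2
    nlinarith [mul_pos hM1 hM2, mul_pos hM1 hM3, mul_pos hM2 hM3]
  have hmain : ∀ θ η : ℝ, 0 < η → θ * TT κ τ E Ψ ≤
      η * (1 + |θ| * M * P) + θ ^ 2 * M ^ 2 * P / 2 := by
    intro θ η hη
    obtain ⟨Y, hY, hY1, hY2⟩ := EQT_key hCAL (τ := τ) hκ hE hT hs hK hKs hη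
    obtain ⟨hadd, hTadd⟩ := (hLIN κ τ E).1 Y Ψ θ hY.toC1c hC1
    have hdot : ∀ p, |Y.a p * Ψ.a p + Y.b p * Ψ.b p + Y.c p * Ψ.c p| ≤ η * M := by
      intro p
      by_cases hp : p ∈ K
      · obtain ⟨g1, g2, g3⟩ := hY2 p hp
        have e : Y.a p * Ψ.a p + Y.b p * Ψ.b p + Y.c p * Ψ.c p =
            (Y.a p - (NN τ (1 / R) s).a p) * Ψ.a p + (Y.b p - (NN τ (1 / R) s).b p) * Ψ.b p +
              (Y.c p - (NN τ (1 / R) s).c p) * Ψ.c p := by
          have := ho p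
          linear_combination this
        rw [e]
        have h1 : |(Y.a p - (NN τ (1 / R) s).a p) * Ψ.a p| ≤ η * M1 := by
          rw [abs_mul]; exact mul_le_mul g1 (hB1 p) (abs_nonneg _) hη.le
        have h2 : |(Y.b p - (NN τ (1 / R) s).b p) * Ψ.b p| ≤ η * M2 := by
          rw [abs_mul]; exact mul_le_mul g2 (hB2 p) (abs_nonneg _) hη.le
        have h3 : |(Y.c p - (NN τ (1 / R) s).c p) * Ψ.c p| ≤ η * M3 := by
          rw [abs_mul]; exact mul_le_mul g3 (hB3 p) (abs_nonneg _) hη.le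
        have h4 := abs_add_three ((Y.a p - (NN τ (1 / R) s).a p) * Ψ.a p)
          ((Y.b p - (NN τ (1 / R) s).b p) * Ψ.b p) ((Y.c p - (NN τ (1 / R) s).c p) * Ψ.c p)
        have h5 : η * M = η * M1 + η * M2 + η * M3 := by rw [hM]; ring
        linarith
      · obtain ⟨g1, g2, g3⟩ := hoff p hp
        rw [g1, g2, g3]
        simp only [mul_zero, add_zero, abs_zero]
        positivity
    set Q : ℝ := 1 + 2 * |θ| * (η * M) + θ ^ 2 * M ^ 2 with hQ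
    have hQ1 : 1 ≤ Q := by
      have : 0 ≤ 2 * |θ| * (η * M) + θ ^ 2 * M ^ 2 := by positivity
      linarith
    have hQ0 : 0 ≤ Q := by linarith
    have hnorm : ∀ p, (add Y Ψ θ).a p ^ 2 + (add Y Ψ θ).b p ^ 2 + (add Y Ψ θ).c p ^ 2 ≤
        (√Q) ^ 2 := by
      intro p
      rw [Real.sq_sqrt hQ0]
      show (Y.a p + θ * Ψ.a p) ^ 2 + (Y.b p + θ * Ψ.b p) ^ 2 + (Y.c p + θ * Ψ.c p) ^ 2 ≤ Q
      have h1 := hY.le p
      have h2 := hsq p
      have h3 := hdot p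
      have h4 : θ * (Y.a p * Ψ.a p + Y.b p * Ψ.b p + Y.c p * Ψ.c p) ≤ |θ| * (η * M) := by
        refine (le_abs_self _).trans ?_
        rw [abs_mul]
        exact mul_le_mul_of_nonneg_left h3 (abs_nonneg θ)
      have h5 : θ ^ 2 * (Ψ.a p ^ 2 + Ψ.b p ^ 2 + Ψ.c p ^ 2) ≤ θ ^ 2 * M ^ 2 :=
        mul_le_mul_of_nonneg_left h2 (sq_nonneg θ)
      calc (Y.a p + θ * Ψ.a p) ^ 2 + (Y.b p + θ * Ψ.b p) ^ 2 + (Y.c p + θ * Ψ.c p) ^ 2
          = (Y.a p ^ 2 + Y.b p ^ 2 + Y.c p ^ 2) +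
            2 * (θ * (Y.a p * Ψ.a p + Y.b p * Ψ.b p + Y.c p * Ψ.c p)) +
            θ ^ 2 * (Ψ.a p ^ 2 + Ψ.b p ^ 2 + Ψ.c p ^ 2) := by ring
        _ ≤ 1 + 2 * (|θ| * (η * M)) + θ ^ 2 * M ^ 2 := by linarith
        _ = Q := by rw [hQ]; ring
    have h1 := ((hLIN κ τ E).2.1 P hper.le hP0 (add Y Ψ θ) (√Q) hadd
      (Real.sqrt_pos.2 (by linarith)) hnorm).1
    rw [hTadd] at h1
    have h2 : √Q ≤ (1 + Q) / 2 := by
      nlinarith [Real.sq_sqrt hQ0, sq_nonneg (√Q - 1)]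
    have h3 : √Q * P ≤ (1 + Q) / 2 * P := mul_le_mul_of_nonneg_right h2 hP0
    have h4 : (1 + Q) / 2 * P = P + |θ| * (η * M) * P + θ ^ 2 * M ^ 2 * P / 2 := by
      rw [hQ]; ring
    have h5 : η * (1 + |θ| * M * P) = η + |θ| * (η * M) * P := by ring
    linarith
  have hlim : ∀ θ : ℝ, θ * TT κ τ E Ψ ≤ θ ^ 2 * M ^ 2 * P / 2 := by
    intro θ
    refine le_of_forall_pos_le_add fun δ hδ => ?_
    have hq : 0 < 1 + |θ| * M * P := by positivity
    have h1 := hmain θ (δ / (1 + |θ| * M * P)) (by positivity)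
    rw [div_mul_cancel₀ _ hq.ne'] at h1
    linarith
  by_contra hne
  set T := TT κ τ E Ψ with hTdef
  have hQ : 0 < M ^ 2 * P + 1 := by positivity
  have h1 := hlim (T / (M ^ 2 * P + 1))
  have hT2 : 0 < T ^ 2 := by positivity
  have h2 : T / (M ^ 2 * P + 1) * T = T ^ 2 / (M ^ 2 * P + 1) := by ring
  have h3 : (T / (M ^ 2 * P + 1)) ^ 2 * M ^ 2 * P / 2 =
      T ^ 2 / (M ^ 2 * P + 1) * ((M ^ 2 * P) / (M ^ 2 * P + 1) / 2) := by
    field_simp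
  rw [h2, h3] at h1
  have h4 : (M ^ 2 * P) / (M ^ 2 * P + 1) ≤ 1 := by
    rw [div_le_one hQ]; linarith
  have h5 : 0 < T ^ 2 / (M ^ 2 * P + 1) := by positivity
  nlinarith

theorem EQT_mulC1 {κ τ R s : ℝ} {m : ℝ × ℝ → ℝ} (hκ : κ ≤ 0) (hRk : -4 < κ * R ^ 2) (hR0 : 0 < R)
    {ψ : Sp → ℝ} (hψ : Side R s m ψ) : C1c κ (mul ψ (NN τ (1 / R) s)) := by
  have hk : ∀ p : Sp, nq (pr p) < R ^ 2 →
      ContDiffAt ℝ 1 (fun p : Sp => kk τ (1 / R) (nq (pr p))) p := by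
    intro p hp
    unfold kk
    have hn : ContDiff ℝ 1 (fun p : Sp => nq (pr p)) := by
      unfold nq pr
      fun_prop
    have hw0 : 0 ≤ nq (pr p) := by unfold nq; positivity
    have h1 : 0 < 1 - (1 / R) ^ 2 * nq (pr p) := by
      rw [sub_pos, div_pow, one_pow, one_div_mul_eq_div, div_lt_one (by positivity)]
      exact hp
    have h2 : 0 < 1 + τ ^ 2 * nq (pr p) := by positivity
    refine ContDiffAt.div ?_ ?_ (Real.sqrt_pos.2 h2).ne'
    · exact ContDiffAt.sqrt (contDiffAt_const.sub (contDiffAt_const.mul hn.contDiffAt)) h1.ne'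
    · exact ContDiffAt.sqrt (contDiffAt_const.add (contDiffAt_const.mul hn.contDiffAt)) h2.ne'
  have hgen : ∀ g : Sp → ℝ, (∀ p, nq (pr p) < R ^ 2 → ContDiffAt ℝ 1 g p) →
      ContDiff ℝ 1 (fun p => ψ p * g p) ∧ HasCompactSupport (fun p => ψ p * g p) ∧
      tsupport (fun p => ψ p * g p) ⊆ space κ := by
    intro g hg
    have hsub : tsupport (fun p => ψ p * g p) ⊆ tsupport ψ := tsupport_mul_subset_left
    refine ⟨contDiff_iff_contDiffAt.2 fun p => ?_, hψ.cs.mul_right, fun p hp => ?_⟩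
    · by_cases hp : p ∈ tsupport (fun p => ψ p * g p)
      · exact hψ.c1.contDiffAt.mul (hg p (hψ.sup p (hsub hp)).1)
      · exact (contDiffAt_const (c := (0 : ℝ))).congr_of_eventuallyEq
          (notMem_tsupport_iff_eventuallyEq.1 hp)
    · exact EQT_space hκ hRk (hψ.sup p (hsub hp)).1.le
  have ha := hgen (NN τ (1 / R) s).a (fun p hp => by
    show ContDiffAt ℝ 1 (fun p : Sp => 1 / R * p.1 - s * kk τ (1 / R) (nq (pr p)) * τ * p.2.1) p
    refine ContDiffAt.sub (by fun_prop) ?_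
    exact ((contDiffAt_const.mul (hk p hp)).mul contDiffAt_const).mul (by fun_prop))
  have hb := hgen (NN τ (1 / R) s).b (fun p hp => by
    show ContDiffAt ℝ 1 (fun p : Sp => 1 / R * p.2.1 + s * kk τ (1 / R) (nq (pr p)) * τ * p.1) p
    refine ContDiffAt.add (by fun_prop) ?_
    exact ((contDiffAt_const.mul (hk p hp)).mul contDiffAt_const).mul (by fun_prop))
  have hc := hgen (NN τ (1 / R) s).c (fun p hp => by
    show ContDiffAt ℝ 1 (fun p : Sp => s * kk τ (1 / R) (nq (pr p))) p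
    exact contDiffAt_const.mul (hk p hp))
  exact ⟨ha.1, hb.1, hc.1, ha.2.1, hb.2.1, hc.2.1, ha.2.2, hb.2.2, hc.2.2⟩

theorem EQT_two (hLIN : LIN_stmt) (hCAL : CAL_stmt) {κ τ R s : ℝ} {m : ℝ × ℝ → ℝ} {E : Set Sp}
    (hκ : κ ≤ 0) (hE : IsCompact E) (hT : TrapAt κ R m E)
    (hper : per κ τ E = ENNReal.ofReal (2 / R * (vol κ E).toReal + FF κ τ R))
    (hs : s = 1 ∨ s = -1) (ψ : Sp → ℝ) (hψ : Side R s m ψ) (hψ0 : ∀ p, 0 ≤ ψ p) :
    0 ≤ TT κ τ E (mul ψ (NN τ (1 / R) s)) := by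
  have hR0 : 0 < R := hT.r0
  set P : ℝ := 2 / R * (vol κ E).toReal + FF κ τ R with hP
  have hP0 : 0 ≤ P := add_nonneg (by positivity) (EQT_FF_nonneg _ _ _)
  obtain ⟨B, hB, hBp⟩ := EQT_bdd hψ.c1.continuous hψ.cs
  have hNc := EQT_mulC1 (τ := τ) hκ hT.rk hR0 hψ
  have hmain : ∀ η : ℝ, 0 < η → -(η * (B + 2 * B * P)) ≤ TT κ τ E (mul ψ (NN τ (1 / R) s)) := by
    intro η hη
    obtain ⟨Y, hY, hY1, hY2⟩ := EQT_key hCAL (τ := τ) hκ hE hT hs hψ.cs.isCompact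
      hψ.sup hη
    have hYc := hY.toC1c
    have hψY : C1c κ (mul ψ Y) := (hLIN κ τ E).2.2 Y ψ hYc hψ.c1
    have hψY2 : C1c κ (mul (fun p => B - ψ p) Y) :=
      (hLIN κ τ E).2.2 Y (fun p => B - ψ p) hYc (contDiff_const.sub hψ.c1)
    -- the complementary part
    have h1 : TT κ τ E (mul (fun p => B - ψ p) Y) ≤ B * P := by
      refine ((hLIN κ τ E).2.1 P hper.le hP0 _ B hψY2 hB fun p => ?_).1
      show ((B - ψ p) * Y.a p) ^ 2 + ((B - ψ p) * Y.b p) ^ 2 + ((B - ψ p) * Y.c p) ^ 2 ≤ B ^ 2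
      have h2 := hY.le p
      have h3 : 0 ≤ B - ψ p := by linarith [le_abs_self (ψ p), hBp p]
      have h4 : (B - ψ p) ^ 2 ≤ B ^ 2 := pow_le_pow_left₀ h3 (by linarith [hψ0 p]) 2
      have h5 : (B - ψ p) ^ 2 * (Y.a p ^ 2 + Y.b p ^ 2 + Y.c p ^ 2) ≤ B ^ 2 * 1 :=
        mul_le_mul h4 h2 (by positivity) (by positivity)
      calc ((B - ψ p) * Y.a p) ^ 2 + ((B - ψ p) * Y.b p) ^ 2 + ((B - ψ p) * Y.c p) ^ 2
          = (B - ψ p) ^ 2 * (Y.a p ^ 2 + Y.b p ^ 2 + Y.c p ^ 2) := by ring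
        _ ≤ B ^ 2 := by linarith
    have h2 := ((hLIN κ τ E).1 (mul ψ Y) (mul (fun p => B - ψ p) Y) 1 hψY hψY2).2
    have h3 := ((hLIN κ τ E).1 Y Y (B - 1) hYc hYc).2
    have h4 : add (mul ψ Y) (mul (fun p => B - ψ p) Y) 1 = add Y Y (B - 1) := by
      unfold add mul
      simp only [VF.mk.injEq]
      refine ⟨funext fun p => ?_, funext fun p => ?_, funext fun p => ?_⟩ <;> ring
    rw [h4, h3] at h2
    -- the difference of the two fields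
    have h5 := (hLIN κ τ E).1 (mul ψ (NN τ (1 / R) s)) (mul ψ Y) (-1) hNc hψY
    have h6 := ((hLIN κ τ E).2.1 P hper.le hP0 _ (2 * (B * η)) h5.1 (by positivity)
      fun p => ?_).2
    · rw [h5.2] at h6
      have h7 : B * (P - η) ≤ B * TT κ τ E Y := mul_le_mul_of_nonneg_left hY1 hB.le
      nlinarith
    · show (ψ p * (NN τ (1 / R) s).a p + -1 * (ψ p * Y.a p)) ^ 2 +
        (ψ p * (NN τ (1 / R) s).b p + -1 * (ψ p * Y.b p)) ^ 2 +
        (ψ p * (NN τ (1 / R) s).c p + -1 * (ψ p * Y.c p)) ^ 2 ≤ (2 * (B * η)) ^ 2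
      by_cases hp : p ∈ tsupport ψ
      · obtain ⟨g1, g2, g3⟩ := hY2 p hp
        have e1 : (Y.a p - (NN τ (1 / R) s).a p) ^ 2 ≤ η ^ 2 := by
          rw [← sq_abs]; exact pow_le_pow_left₀ (abs_nonneg _) g1 2
        have e2 : (Y.b p - (NN τ (1 / R) s).b p) ^ 2 ≤ η ^ 2 := by
          rw [← sq_abs]; exact pow_le_pow_left₀ (abs_nonneg _) g2 2
        have e3 : (Y.c p - (NN τ (1 / R) s).c p) ^ 2 ≤ η ^ 2 := by
          rw [← sq_abs]; exact pow_le_pow_left₀ (abs_nonneg _) g3 2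
        have e4 : ψ p ^ 2 ≤ B ^ 2 := by
          rw [← sq_abs]; exact pow_le_pow_left₀ (abs_nonneg _) (hBp p) 2
        have e5 : ψ p ^ 2 * ((Y.a p - (NN τ (1 / R) s).a p) ^ 2 +
            (Y.b p - (NN τ (1 / R) s).b p) ^ 2 + (Y.c p - (NN τ (1 / R) s).c p) ^ 2) ≤
            B ^ 2 * (3 * η ^ 2) := mul_le_mul e4 (by linarith) (by positivity) (by positivity)
        have e6 : 0 ≤ B ^ 2 * η ^ 2 := by positivity
        calc _ = ψ p ^ 2 * ((Y.a p - (NN τ (1 / R) s).a p) ^ 2 +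
            (Y.b p - (NN τ (1 / R) s).b p) ^ 2 + (Y.c p - (NN τ (1 / R) s).c p) ^ 2) := by ring
          _ ≤ (2 * (B * η)) ^ 2 := by nlinarith
      · rw [image_eq_zero_of_notMem_tsupport hp]
        have h0 := sq_nonneg (2 * (B * η))
        simp only [zero_mul, mul_zero, add_zero]
        linarith
  refine le_of_forall_pos_le_add fun δ hδ => ?_
  have hq : 0 < B + 2 * B * P := by positivity
  have h1 := hmain (δ / (B + 2 * B * P)) (by positivity)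
  rw [div_mul_cancel₀ _ hq.ne'] at h1
  linarith

theorem EQT (hLIN : LIN_stmt) (hCAL : CAL_stmt) : EQT_stmt := by
  intro κ τ R m E hκ hE hT hper s hs
  exact ⟨fun Ψ ha hb hc ho => EQT_one hLIN hCAL hκ hE hT hper hs Ψ ha hb hc ho,
    fun ψ hψ hψ0 => EQT_two hLIN hCAL hκ hE hT hper hs ψ hψ hψ0⟩

end Pool.Agent.helper75.IQ
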